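import Pool.Agent.KS6_69.SF.Sec4

/-!
# Plane convex bodies with a continuum of companions with the same section function

There is a nonempty open set of plane convex bodies each of which has the same first section function as a
continuum of other bodies, no two of them equal or reflections of each other.
-/

set_option autoImplicit false
open scoped Pointwise

namespace Pool.Agent.Results.MP_0b6b0e_gt.ContinuumOfBodies

open Pool.Agent.KS6_69.SF

/-- The Euclidean plane. -/
abbrev Plane : Type := EuclideanSpace ℝ (Fin 2)

/-- The origin is an interior point. -/
def HasOrigin (K : ConvexBody Plane) : Prop := (0 : Plane) ∈ interior (K : Set Plane)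

/-- The two bodies have the same section function `v_{K,1}`: their intersections with every line through
the origin have the same length. -/
def SameSections (K L : ConvexBody Plane) : Prop :=
  ∀ S : Submodule ℝ Plane, Module.finrank ℝ S = 1 →
    MeasureTheory.Measure.hausdorffMeasure 1 ((L : Set Plane) ∩ (S : Set Plane)) =
      MeasureTheory.Measure.hausdorffMeasure 1 ((K : Set Plane) ∩ (S : Set Plane))

/-- The two bodies are equal up to reflection in the origin. -/
def EqualUpToReflection (K L : ConvexBody Plane) : Prop :=
  (L : Set Plane) = K ∨ (L : Set Plane) = -(K : Set Plane)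

/-- There is a nonempty open set `U` of convex bodies in the plane, all with the origin in their interior,
such that for every `K` in `U` there is a family `L t`, `t ∈ [0, 1]`, of convex bodies with the origin in
their interior and with the same section function as `K`, such that `K` and the `L t` are
pairwise different, also up to reflection. -/
theorem result : ∃ U : Set (ConvexBody Plane), IsOpen U ∧ U.Nonempty ∧ ∀ K ∈ U, HasOrigin K ∧
    ∃ L : Set.Icc (0 : ℝ) 1 → ConvexBody Plane,
      (∀ t, HasOrigin (L t) ∧ SameSections K (L t) ∧ ¬ EqualUpToReflection K (L t)) ∧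
      ∀ s t, s ≠ t → ¬ EqualUpToReflection (L s) (L t) := by
  refine ⟨Metric.ball K0 (1 / 1000000), Metric.isOpen_ball, ⟨_, Metric.mem_ball_self (by norm_num)⟩,
    fun K hK => ?_⟩
  obtain ⟨h, L, h1, h2⟩ := family hK
  refine ⟨h, L, fun t => ⟨(h1 t).1, (h1 t).2.2.2, ?_⟩, fun s t hst => ?_⟩
  · rintro (e | e)
    · exact (h1 t).2.1 e
    · exact (h1 t).2.2.1 e
  · rintro (e | e)
    · exact (h2 t s hst.symm).1 e
    · exact (h2 t s hst.symm).2 e

end Pool.Agent.Results.MP_0b6b0e_gt.ContinuumOfBodies
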